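import Mathlib

/-!
# The belief-propagation image of product measures is not convex for the antiferromagnetic Potts
model with at least four colours

For `q ≥ 4` colours, `d ≥ 2` and `0 < β < 1` the set of the normalised images of the product
measures is not convex. Let `a`, `b`, `c`, `e` be four colours. The vertices of the polytope
`conv (Fprod q d β)` which belong to the colourings with the colour counts `(d - 1, 1, 0)`,
`(d - 1, 0, 1)`, `(d - 2, 1, 1)` for `(a, b, c)` span a face: on it the linear functional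
`x a + β ^ (d - 2) (x b + x c) - (1 + 2 β) β ^ (d - 2) x e` vanishes, and it is nonnegative on the
whole polytope (Bernoulli's inequality). A product measure whose image is in this face is
supported by colourings of these three kinds, and the support is a product set; so not all the three
kinds can occur. Hence the points inside the triangle are not images of product measures.
-/

set_option autoImplicit false

open Finset

namespace Pool.Agent.Results.MP_d064d6_lc.NotConvex

/-- The antiferromagnetic Potts interaction matrix: `β` on the diagonal and `1` off the diagonal. -/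
def potts (q : ℕ) (β : ℝ) (c b : Fin q) : ℝ := if c = b then β else 1

/-- `G_c(μ)`: the expectation of `∏ i, A c (τ i)` when `τ` has the distribution `μ`. -/
def G {q d : ℕ} (A : Fin q → Fin q → ℝ) (μ : (Fin d → Fin q) → ℝ) (c : Fin q) : ℝ :=
  ∑ τ : Fin d → Fin q, μ τ * ∏ i, A c (τ i)

/-- The belief-propagation map `μ ↦ G(μ) / ∑ c, G_c(μ)`. -/
noncomputable def F {q d : ℕ} (A : Fin q → Fin q → ℝ) (μ : (Fin d → Fin q) → ℝ) : Fin q → ℝ :=
  fun c => G A μ c / ∑ b, G A μ b

/-- The product measure `p_1 ⊗ ... ⊗ p_d` on the colourings. -/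
def prodM {q d : ℕ} (p : Fin d → Fin q → ℝ) (τ : Fin d → Fin q) : ℝ := ∏ i, p i (τ i)

/-- The image of the product measures under the belief-propagation map. -/
def Fprod (q d : ℕ) (β : ℝ) : Set (Fin q → ℝ) :=
  {x | ∃ p : Fin d → Fin q → ℝ, (∀ i, p i ∈ stdSimplex ℝ (Fin q)) ∧ x = F (potts q β) (prodM p)}

/-! ### Bernoulli inequalities -/

lemma bern_up {β : ℝ} (h0 : 0 < β) (h1 : β < 1) (k : ℕ) :
    1 - (1 - β) * (k + 2 : ℕ) < β ^ (k + 2) := by
  induction k with
  | zero => norm_num; nlinarith [sq_pos_of_pos (sub_pos.2 h1)]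
  | succ k ih =>
    have h2 : β ^ (k + 1 + 2) = β * β ^ (k + 2) := by ring
    rw [h2]
    have h3 : β * (1 - (1 - β) * (k + 2 : ℕ)) < β * β ^ (k + 2) := mul_lt_mul_of_pos_left ih h0
    refine lt_of_le_of_lt ?_ h3
    push_cast
    nlinarith [mul_nonneg (sq_nonneg (1 - β)) (by positivity : (0 : ℝ) ≤ (k : ℝ) + 2)]

lemma bern_down {β : ℝ} (h0 : 0 < β) (h1 : β < 1) (k : ℕ) :
    β ^ (k + 1) * (1 + (1 - β) * (k + 1 : ℕ)) < 1 := by
  induction k with
  | zero => norm_num; nlinarith [sq_pos_of_pos (sub_pos.2 h1)]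
  | succ k ih =>
    have h2 : β ^ (k + 1 + 1) * (1 + (1 - β) * (k + 1 + 1 : ℕ)) =
        β * (β ^ (k + 1) * (1 + (1 - β) * (k + 1 : ℕ))) + β ^ (k + 2) * (1 - β) := by
      push_cast
      ring
    rw [h2]
    have h3 : β ^ (k + 2) ≤ 1 := pow_le_one₀ h0.le h1.le
    have h4 : β * (β ^ (k + 1) * (1 + (1 - β) * (k + 1 : ℕ))) < β * 1 :=
      mul_lt_mul_of_pos_left ih h0
    nlinarith

/-- The line through the points of the graph of `n ↦ β ^ n` at `m` and `m + 1`. -/
lemma bern {β : ℝ} (h0 : 0 < β) (h1 : β < 1) (m n : ℕ) :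
    β ^ m * (1 - (1 - β) * ((n : ℝ) - m)) ≤ β ^ n ∧
      (β ^ m * (1 - (1 - β) * ((n : ℝ) - m)) = β ^ n → n = m ∨ n = m + 1) := by
  have hm : 0 < β ^ m := pow_pos h0 m
  rcases lt_or_ge n m with h | h
  · obtain ⟨k, rfl⟩ : ∃ k, m = n + (k + 1) := ⟨m - n - 1, by omega⟩
    have h2 := bern_down h0 h1 k
    have hn : 0 < β ^ n := pow_pos h0 n
    have h3 : β ^ (n + (k + 1)) * (1 - (1 - β) * ((n : ℝ) - ((n + (k + 1) : ℕ) : ℝ))) =
        β ^ n * (β ^ (k + 1) * (1 + (1 - β) * (k + 1 : ℕ))) := by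
      push_cast
      ring
    have h4 : β ^ (n + (k + 1)) * (1 - (1 - β) * ((n : ℝ) - ((n + (k + 1) : ℕ) : ℝ))) < β ^ n := by
      rw [h3]
      calc β ^ n * (β ^ (k + 1) * (1 + (1 - β) * (k + 1 : ℕ))) < β ^ n * 1 :=
            mul_lt_mul_of_pos_left h2 hn
        _ = β ^ n := mul_one _
    exact ⟨h4.le, fun h5 => absurd h5 h4.ne⟩
  · obtain ⟨k, rfl⟩ : ∃ k, n = m + k := ⟨n - m, by omega⟩
    have h3 : β ^ m * (1 - (1 - β) * (((m + k : ℕ) : ℝ) - m)) = β ^ m * (1 - (1 - β) * k) := by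
      push_cast
      ring
    rw [h3, pow_add]
    rcases k with _ | _ | k
    · simp
    · refine ⟨?_, fun _ => Or.inr rfl⟩
      norm_num
    · have h2 := bern_up h0 h1 k
      have h4 : β ^ m * (1 - (1 - β) * (k + 1 + 1 : ℕ)) < β ^ m * β ^ (k + 1 + 1) :=
        mul_lt_mul_of_pos_left h2 hm
      exact ⟨h4.le, fun h5 => absurd h5 h4.ne⟩

/-! ### Colour counts -/

/-- the number of the occurrences of the colour `c` in `τ` -/
def cnt {q d : ℕ} (τ : Fin d → Fin q) (c : Fin q) : ℕ := (univ.filter fun i => τ i = c).card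

lemma prod_potts {q d : ℕ} (β : ℝ) (τ : Fin d → Fin q) (c : Fin q) :
    ∏ i, potts q β c (τ i) = β ^ cnt τ c := by
  unfold potts cnt
  rw [Finset.prod_ite]
  simp [eq_comm]

lemma cnt_three {q d : ℕ} (τ : Fin d → Fin q) {a b c : Fin q} (hab : a ≠ b) (hac : a ≠ c)
    (hbc : b ≠ c) : cnt τ a + cnt τ b + cnt τ c ≤ d := by
  unfold cnt
  have h1 : Disjoint (univ.filter fun i => τ i = a) (univ.filter fun i => τ i = b) := by
    rw [Finset.disjoint_filter]
    rintro i _ h2 h3
    exact hab (h2.symm.trans h3)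
  have h2 : Disjoint ((univ.filter fun i => τ i = a) ∪ (univ.filter fun i => τ i = b))
      (univ.filter fun i => τ i = c) := by
    rw [Finset.disjoint_left]
    intro i h3 h4
    rw [mem_union, mem_filter, mem_filter] at h3
    rw [mem_filter] at h4
    rcases h3 with h3 | h3
    · exact hac (h3.2.symm.trans h4.2)
    · exact hbc (h3.2.symm.trans h4.2)
  rw [← card_union_of_disjoint h1, ← card_union_of_disjoint h2]
  exact (card_le_univ _).trans (by simp)

/-- The functional is nonnegative on colourings, and its zeros have the three kinds. -/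
lemma key {q d : ℕ} (hd : 2 ≤ d) {β : ℝ} (h0 : 0 < β) (h1 : β < 1) (τ : Fin d → Fin q)
    {a b c e : Fin q} (hab : a ≠ b) (hac : a ≠ c) (hbc : b ≠ c) :
    0 ≤ β ^ cnt τ a + β ^ (d - 2) * (β ^ cnt τ b + β ^ cnt τ c) -
        (1 + 2 * β) * β ^ (d - 2) * β ^ cnt τ e ∧
      (β ^ cnt τ a + β ^ (d - 2) * (β ^ cnt τ b + β ^ cnt τ c) -
        (1 + 2 * β) * β ^ (d - 2) * β ^ cnt τ e = 0 →
      β ^ cnt τ e = 1 ∧
      ((cnt τ a = d - 1 ∧ cnt τ b = 1 ∧ cnt τ c = 0) ∨
      (cnt τ a = d - 1 ∧ cnt τ b = 0 ∧ cnt τ c = 1) ∨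
      (cnt τ a = d - 2 ∧ cnt τ b = 1 ∧ cnt τ c = 1))) := by
  have hs := cnt_three τ hab hac hbc
  obtain ⟨ha1, ha2⟩ := bern h0 h1 (d - 2) (cnt τ a)
  obtain ⟨hb1, hb2⟩ := bern h0 h1 0 (cnt τ b)
  obtain ⟨hc1, hc2⟩ := bern h0 h1 0 (cnt τ c)
  simp only [pow_zero, one_mul, Nat.cast_zero, sub_zero] at hb1 hb2 hc1 hc2
  have he : β ^ cnt τ e ≤ 1 := pow_le_one₀ h0.le h1.le
  have hP : 0 < β ^ (d - 2) := pow_pos h0 _
  have hdr : ((d - 2 : ℕ) : ℝ) = (d : ℝ) - 2 := by
    rw [Nat.cast_sub hd]; norm_num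
  have hsr : ((cnt τ a : ℕ) : ℝ) - ((d - 2 : ℕ) : ℝ) + cnt τ b + cnt τ c ≤ 2 := by
    rw [hdr]
    have : ((cnt τ a + cnt τ b + cnt τ c : ℕ) : ℝ) ≤ d := by exact_mod_cast hs
    push_cast at this
    linarith
  set x : ℝ := ((cnt τ a : ℕ) : ℝ) - ((d - 2 : ℕ) : ℝ) with hx
  set P : ℝ := β ^ (d - 2) with hPdef
  have hb3 := mul_le_mul_of_nonneg_left hb1 hP.le
  have hc3 := mul_le_mul_of_nonneg_left hc1 hP.le
  have he3 : (1 + 2 * β) * P * β ^ cnt τ e ≤ (1 + 2 * β) * P := by
    have : 0 ≤ (1 + 2 * β) * P := by positivity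
    calc (1 + 2 * β) * P * β ^ cnt τ e ≤ (1 + 2 * β) * P * 1 :=
          mul_le_mul_of_nonneg_left he this
      _ = _ := mul_one _
  have hsum : P * ((1 - β) * (x + cnt τ b + cnt τ c)) ≤ P * ((1 - β) * 2) :=
    mul_le_mul_of_nonneg_left (mul_le_mul_of_nonneg_left hsr (by linarith)) hP.le
  refine ⟨by nlinarith, fun h => ?_⟩
  have e1 : P * (1 - (1 - β) * x) = β ^ cnt τ a := by nlinarith
  have e2 : P * (1 - (1 - β) * (cnt τ b : ℝ)) = P * β ^ cnt τ b := by nlinarith
  have e3 : P * (1 - (1 - β) * (cnt τ c : ℝ)) = P * β ^ cnt τ c := by nlinarith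
  have e4 : P * ((1 - β) * (x + cnt τ b + cnt τ c)) = P * ((1 - β) * 2) := by nlinarith
  have f1 := ha2 e1
  have f2 := hb2 (mul_left_cancel₀ hP.ne' e2)
  have f3 := hc2 (mul_left_cancel₀ hP.ne' e3)
  have f4 : x + cnt τ b + cnt τ c = 2 :=
    mul_left_cancel₀ (by linarith : (1 - β) ≠ 0) (mul_left_cancel₀ hP.ne' e4)
  have f5 : cnt τ a + cnt τ b + cnt τ c = d := by
    rw [hx, hdr] at f4
    have : ((cnt τ a + cnt τ b + cnt τ c : ℕ) : ℝ) = d := by
      push_cast
      linarith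
    exact_mod_cast this
  have e5 : (1 + 2 * β) * P * β ^ cnt τ e = (1 + 2 * β) * P * 1 := by nlinarith
  have f6 : β ^ cnt τ e = 1 := mul_left_cancel₀ (by positivity) e5
  refine ⟨f6, ?_⟩
  omega

lemma cnt_update {q d : ℕ} (τ : Fin d → Fin q) (j : Fin d) (x y : Fin q) :
    cnt (Function.update τ j x) y + (if τ j = y then 1 else 0) =
      cnt τ y + (if x = y then 1 else 0) := by
  unfold cnt
  rw [card_filter, card_filter, ← Finset.add_sum_erase univ _ (mem_univ j),
    ← Finset.add_sum_erase univ (fun i => if τ i = y then 1 else 0) (mem_univ j)]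
  have h1 : ∑ i ∈ univ.erase j, (if Function.update τ j x i = y then 1 else 0) =
      ∑ i ∈ univ.erase j, (if τ i = y then 1 else 0) := by
    refine Finset.sum_congr rfl fun i hi => ?_
    rw [Function.update_of_ne (Finset.ne_of_mem_erase hi)]
  rw [h1, Function.update_self]
  omega

/-! ### Product measures -/

lemma G_prodM {q d : ℕ} (β : ℝ) (p : Fin d → Fin q → ℝ) (x : Fin q) :
    G (potts q β) (prodM p) x = ∑ τ : Fin d → Fin q, prodM p τ * β ^ cnt τ x := by
  unfold G
  refine Finset.sum_congr rfl fun τ _ => ?_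
  rw [prod_potts]

/-- the unit vectors as a product measure: all mass at the colouring `σ` -/
lemma G_point {q d : ℕ} (A : Fin q → Fin q → ℝ) (σ : Fin d → Fin q) (x : Fin q) :
    G A (prodM fun i => Pi.single (σ i) (1 : ℝ)) x = ∏ i, A x (σ i) := by
  classical
  unfold G
  rw [Finset.sum_eq_single σ]
  · simp [prodM]
  · intro τ _ hτ
    obtain ⟨i, hi⟩ := Function.ne_iff.1 hτ
    have : prodM (fun i => Pi.single (σ i) (1 : ℝ)) τ = 0 := by
      unfold prodM
      exact Finset.prod_eq_zero (mem_univ i) (Pi.single_eq_of_ne hi _)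
    rw [this, zero_mul]
  · intro h
    exact absurd (mem_univ σ) h

lemma point_mem {q d : ℕ} (β : ℝ) (σ : Fin d → Fin q) :
    (fun x => (∏ i, potts q β x (σ i)) / ∑ y, ∏ i, potts q β y (σ i)) ∈ Fprod q d β := by
  classical
  refine ⟨fun i => Pi.single (σ i) (1 : ℝ), fun i => single_mem_stdSimplex ℝ (σ i), ?_⟩
  funext x
  unfold F
  simp only [G_point]

/-- The combinatorial core: a product set cannot consist of colourings of the three kinds and
contain colourings of each kind. -/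
lemma no_product {q d : ℕ} (hd : 2 ≤ d) {a b c : Fin q} (hab : a ≠ b) (hac : a ≠ c) (hbc : b ≠ c)
    (S : Fin d → Fin q → Prop)
    (hS : ∀ τ : Fin d → Fin q, (∀ i, S i (τ i)) →
      (cnt τ a = d - 1 ∧ cnt τ b = 1 ∧ cnt τ c = 0) ∨
      (cnt τ a = d - 1 ∧ cnt τ b = 0 ∧ cnt τ c = 1) ∨
      (cnt τ a = d - 2 ∧ cnt τ b = 1 ∧ cnt τ c = 1))
    (hA : ∃ τ : Fin d → Fin q, (∀ i, S i (τ i)) ∧ cnt τ c = 0)
    (hB : ∃ τ : Fin d → Fin q, (∀ i, S i (τ i)) ∧ cnt τ b = 0)
    (hC : ∃ τ : Fin d → Fin q, (∀ i, S i (τ i)) ∧ cnt τ b = 1 ∧ cnt τ c = 1 ∧ cnt τ a = d - 2) :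
    False := by
  classical
  obtain ⟨τA, hA1, hA2⟩ := hA
  obtain ⟨τB, hB1, hB2⟩ := hB
  obtain ⟨τC, hC1, hC2, hC3, hC4⟩ := hC
  have hupd : ∀ (τ : Fin d → Fin q) (j : Fin d) (x : Fin q), (∀ i, S i (τ i)) → S j x →
      ∀ i, S i (Function.update τ j x i) := by
    intro τ j x h1 h2 i
    rcases eq_or_ne i j with rfl | h
    · rwa [Function.update_self]
    · rw [Function.update_of_ne h]
      exact h1 i
  obtain ⟨j2, hj2⟩ : ∃ j, τC j = b := by
    by_contra hcon
    push Not at hcon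
    have : cnt τC b = 0 := by
      unfold cnt
      rw [Finset.card_eq_zero, Finset.filter_eq_empty_iff]
      intro i _
      exact hcon i
    omega
  obtain ⟨j3, hj3⟩ : ∃ j, τC j = c := by
    by_contra hcon
    push Not at hcon
    have : cnt τC c = 0 := by
      unfold cnt
      rw [Finset.card_eq_zero, Finset.filter_eq_empty_iff]
      intro i _
      exact hcon i
    omega
  have hj : j2 ≠ j3 := by
    rintro rfl
    exact hbc (hj2.symm.trans hj3)
  have hx : τB j2 ≠ b := by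
    intro h
    have : 0 < cnt τB b := by
      unfold cnt
      exact Finset.card_pos.2 ⟨j2, by simp [h]⟩
    omega
  have hy : τA j3 ≠ c := by
    intro h
    have : 0 < cnt τA c := by
      unfold cnt
      exact Finset.card_pos.2 ⟨j3, by simp [h]⟩
    omega
  have hxa : τB j2 = a := by
    by_contra hne
    have h1 := hS _ (hupd τC j2 _ hC1 (hB1 j2))
    have h2 := cnt_update τC j2 (τB j2) a
    have h3 := cnt_update τC j2 (τB j2) b
    rw [hj2, if_neg hab.symm, if_neg hne] at h2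
    rw [hj2, if_pos rfl, if_neg hx] at h3
    omega
  have hya : τA j3 = a := by
    by_contra hne
    have h1 := hS _ (hupd τC j3 _ hC1 (hA1 j3))
    have h2 := cnt_update τC j3 (τA j3) a
    have h3 := cnt_update τC j3 (τA j3) c
    rw [hj3, if_neg hac.symm, if_neg hne] at h2
    rw [hj3, if_pos rfl, if_neg hy] at h3
    omega
  have s2 : S j2 a := hxa ▸ hB1 j2
  have s3 : S j3 a := hya ▸ hA1 j3
  have h1 := hS _ (hupd _ j3 _ (hupd τC j2 _ hC1 s2) s3)
  have h2 := cnt_update τC j2 a a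
  have h3 := cnt_update (Function.update τC j2 a) j3 a a
  rw [Function.update_of_ne hj.symm, hj3, if_neg hac.symm, if_pos rfl] at h3
  rw [hj2, if_neg hab.symm, if_pos rfl] at h2
  omega

/-- The functional vanishing on the face. -/
lemma main_part {q d : ℕ} {β : ℝ} (hq : 4 ≤ q) (hd : 2 ≤ d) (h0 : 0 < β) (h1 : β < 1) :
    ¬ Convex ℝ (Fprod q d β) := by
  classical
  intro hconv
  obtain ⟨m, rfl⟩ : ∃ m, d = m + 2 := ⟨d - 2, by omega⟩
  set a : Fin q := ⟨0, by omega⟩ with ha
  set b : Fin q := ⟨1, by omega⟩ with hb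
  set c : Fin q := ⟨2, by omega⟩ with hc
  set e : Fin q := ⟨3, by omega⟩ with he
  have hab : a ≠ b := by simp [ha, hb]
  have hac : a ≠ c := by simp [ha, hc]
  have hbc : b ≠ c := by simp [hb, hc]
  have hea : e ≠ a := by simp [ha, he]
  have heb : e ≠ b := by simp [hb, he]
  have hec : e ≠ c := by simp [hc, he]
  -- the three vertices
  let σA : Fin (m + 2) → Fin q := Fin.cons b fun _ => a
  let σB : Fin (m + 2) → Fin q := Fin.cons c fun _ => a
  let σC : Fin (m + 2) → Fin q := Fin.cons b (Fin.cons c fun _ => a)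
  have gA : ∀ x, ∏ i, potts q β x (σA i) = potts q β x b * potts q β x a ^ (m + 1) := by
    intro x
    simp [σA, Fin.prod_univ_succ, pow_succ, mul_comm]
  have gB : ∀ x, ∏ i, potts q β x (σB i) = potts q β x c * potts q β x a ^ (m + 1) := by
    intro x
    simp [σB, Fin.prod_univ_succ, pow_succ, mul_comm]
  have gC : ∀ x, ∏ i, potts q β x (σC i) = potts q β x b * (potts q β x c * potts q β x a ^ m) := by
    intro x
    simp [σC, Fin.prod_univ_succ]
  have hpos : ∀ x y, 0 < potts q β x y := by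
    intro x y
    unfold potts
    split_ifs
    · exact h0
    · exact one_pos
  have hne : (univ : Finset (Fin q)).Nonempty := ⟨a, mem_univ a⟩
  set sA : ℝ := ∑ y, ∏ i, potts q β y (σA i) with hsA
  set sB : ℝ := ∑ y, ∏ i, potts q β y (σB i) with hsB
  set sC : ℝ := ∑ y, ∏ i, potts q β y (σC i) with hsC
  have pA : 0 < sA := Finset.sum_pos (fun y _ => Finset.prod_pos fun i _ => hpos _ _) hne
  have pB : 0 < sB := Finset.sum_pos (fun y _ => Finset.prod_pos fun i _ => hpos _ _) hne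
  have pC : 0 < sC := Finset.sum_pos (fun y _ => Finset.prod_pos fun i _ => hpos _ _) hne
  have mBC := hconv (point_mem β σB) (point_mem β σC) (show (0 : ℝ) ≤ 1 / 2 by norm_num)
    (show (0 : ℝ) ≤ 1 / 2 by norm_num) (by norm_num)
  have mABC := hconv (point_mem β σA) mBC (show (0 : ℝ) ≤ 1 / 2 by norm_num)
    (show (0 : ℝ) ≤ 1 / 2 by norm_num) (by norm_num)
  obtain ⟨p, hp, hv⟩ := mABC
  obtain ⟨α1, hα1, hα1'⟩ : ∃ α : ℝ, 0 < α ∧ α = 1 / 2 / sA := ⟨_, by positivity, rfl⟩
  obtain ⟨α2, hα2, hα2'⟩ : ∃ α : ℝ, 0 < α ∧ α = 1 / 4 / sB := ⟨_, by positivity, rfl⟩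
  obtain ⟨α3, hα3, hα3'⟩ : ∃ α : ℝ, 0 < α ∧ α = 1 / 4 / sC := ⟨_, by positivity, rfl⟩
  have hFx : ∀ x, F (potts q β) (prodM p) x = α1 * (potts q β x b * potts q β x a ^ (m + 1)) +
      α2 * (potts q β x c * potts q β x a ^ (m + 1)) +
      α3 * (potts q β x b * (potts q β x c * potts q β x a ^ m)) := by
    intro x
    rw [← hv, ← gA, ← gB, ← gC, hα1', hα2', hα3']
    simp only [Pi.add_apply, Pi.smul_apply, smul_eq_mul]
    rw [← hsA, ← hsB, ← hsC]
    ring
  have paa : potts q β a a = β := by simp [potts]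
  have pab : potts q β a b = 1 := by simp [potts, hab]
  have pac : potts q β a c = 1 := by simp [potts, hac]
  have pba : potts q β b a = 1 := by simp [potts, hab.symm]
  have pbb : potts q β b b = β := by simp [potts]
  have pbc : potts q β b c = 1 := by simp [potts, hbc]
  have pca : potts q β c a = 1 := by simp [potts, hac.symm]
  have pcb : potts q β c b = 1 := by simp [potts, hbc.symm]
  have pcc : potts q β c c = β := by simp [potts]
  have pea : potts q β e a = 1 := by simp [potts, hea]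
  have peb : potts q β e b = 1 := by simp [potts, heb]
  have pec : potts q β e c = 1 := by simp [potts, hec]
  have va := hFx a
  have vb := hFx b
  have vc := hFx c
  have ve := hFx e
  rw [paa, pab, pac] at va
  rw [pba, pbb, pbc] at vb
  rw [pca, pcb, pcc] at vc
  rw [pea, peb, pec] at ve
  simp only [one_pow, mul_one, one_mul] at va vb vc ve
  -- the normalising constant of `p`
  set S : ℝ := ∑ y, G (potts q β) (prodM p) y with hS
  have hW : ∀ τ : Fin (m + 2) → Fin q, 0 ≤ prodM p τ := fun τ =>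
    Finset.prod_nonneg fun i _ => (hp i).1 _
  have hG0 : ∀ x, 0 ≤ G (potts q β) (prodM p) x := by
    intro x
    rw [G_prodM]
    exact Finset.sum_nonneg fun τ _ => mul_nonneg (hW τ) (pow_nonneg h0.le _)
  have hF : ∀ x, F (potts q β) (prodM p) x = G (potts q β) (prodM p) x / S := fun x => rfl
  have hSne : S ≠ 0 := by
    intro h
    have := hF e
    rw [h, div_zero, ve] at this
    linarith
  have hSpos : 0 < S := lt_of_le_of_ne (Finset.sum_nonneg fun y _ => hG0 y) (Ne.symm hSne)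
  have hGS : ∀ x, G (potts q β) (prodM p) x = S * F (potts q β) (prodM p) x := by
    intro x
    rw [hF]
    field_simp
  have ga := hGS a
  have gb := hGS b
  have gc := hGS c
  have ge := hGS e
  rw [va] at ga
  rw [vb] at gb
  rw [vc] at gc
  rw [ve] at ge
  -- the functional
  have hd' : m + 2 - 2 = m := by omega
  have hL : ∑ τ : Fin (m + 2) → Fin q, prodM p τ * (β ^ cnt τ a + β ^ (m + 2 - 2) *
      (β ^ cnt τ b + β ^ cnt τ c) - (1 + 2 * β) * β ^ (m + 2 - 2) * β ^ cnt τ e) = 0 := by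
    have h2 : ∑ τ : Fin (m + 2) → Fin q, prodM p τ * (β ^ cnt τ a + β ^ (m + 2 - 2) *
        (β ^ cnt τ b + β ^ cnt τ c) - (1 + 2 * β) * β ^ (m + 2 - 2) * β ^ cnt τ e) =
        G (potts q β) (prodM p) a + β ^ m * (G (potts q β) (prodM p) b +
          G (potts q β) (prodM p) c) - (1 + 2 * β) * β ^ m * G (potts q β) (prodM p) e := by
      simp only [G_prodM, hd']
      rw [← Finset.sum_add_distrib, Finset.mul_sum, Finset.mul_sum, ← Finset.sum_add_distrib,
        ← Finset.sum_sub_distrib]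
      refine Finset.sum_congr rfl fun τ _ => ?_
      ring
    rw [h2, ga, gb, gc, ge]
    ring
  have hzero := (Finset.sum_eq_zero_iff_of_nonneg fun τ _ =>
    mul_nonneg (hW τ) (key hd h0 h1 τ (a := a) (b := b) (c := c) (e := e) hab hac hbc).1).1 hL
  have hsupp : ∀ τ : Fin (m + 2) → Fin q, prodM p τ ≠ 0 → β ^ cnt τ e = 1 ∧
      ((cnt τ a = m + 2 - 1 ∧ cnt τ b = 1 ∧ cnt τ c = 0) ∨
      (cnt τ a = m + 2 - 1 ∧ cnt τ b = 0 ∧ cnt τ c = 1) ∨
      (cnt τ a = m + 2 - 2 ∧ cnt τ b = 1 ∧ cnt τ c = 1)) := by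
    intro τ hτ
    exact (key hd h0 h1 τ hab hac hbc).2
      ((mul_eq_zero.1 (hzero τ (mem_univ τ))).resolve_left hτ)
  have hprod : ∀ τ : Fin (m + 2) → Fin q, prodM p τ ≠ 0 ↔ ∀ i, 0 < p i (τ i) := by
    intro τ
    unfold prodM
    rw [Finset.prod_ne_zero_iff]
    constructor
    · intro h i
      exact lt_of_le_of_ne ((hp i).1 _) (Ne.symm (h i (mem_univ i)))
    · intro h i _
      exact (h i).ne'
  -- comparison of two coordinates
  have hcomp : ∀ (x : Fin q) (k : ℕ), (∀ τ : Fin (m + 2) → Fin q, prodM p τ ≠ 0 →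
      cnt τ x = k) → G (potts q β) (prodM p) x = β ^ k * G (potts q β) (prodM p) e := by
    intro x k h
    rw [G_prodM, G_prodM, Finset.mul_sum]
    refine Finset.sum_congr rfl fun τ _ => ?_
    by_cases hτ : prodM p τ = 0
    · rw [hτ]; ring
    · rw [h τ hτ, (hsupp τ hτ).1]; ring
  refine no_product (S := fun i x => 0 < p i x) hd hab hac hbc
    (fun τ hτ => (hsupp τ ((hprod τ).2 hτ)).2) ?_ ?_ ?_
  · by_contra hcon
    push Not at hcon
    have h2 := hcomp c 1 fun τ hτ => by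
      have h3 := hcon τ ((hprod τ).1 hτ)
      have h4 := (hsupp τ hτ).2
      omega
    rw [gc, ge] at h2
    have h3 : S * (α1 * (1 - β)) = 0 := by linear_combination h2
    have : 0 < S * (α1 * (1 - β)) := mul_pos hSpos (mul_pos hα1 (by linarith))
    linarith
  · by_contra hcon
    push Not at hcon
    have h2 := hcomp b 1 fun τ hτ => by
      have h3 := hcon τ ((hprod τ).1 hτ)
      have h4 := (hsupp τ hτ).2
      omega
    rw [gb, ge] at h2
    have h3 : S * (α2 * (1 - β)) = 0 := by linear_combination h2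
    have : 0 < S * (α2 * (1 - β)) := mul_pos hSpos (mul_pos hα2 (by linarith))
    linarith
  · by_contra hcon
    push Not at hcon
    have h2 := hcomp a (m + 1) fun τ hτ => by
      have h3 := hcon τ ((hprod τ).1 hτ)
      have h4 := (hsupp τ hτ).2
      omega
    rw [ga, ge] at h2
    have h3 : S * (α3 * (β ^ m * (1 - β))) = 0 := by linear_combination h2
    have : 0 < S * (α3 * (β ^ m * (1 - β))) :=
      mul_pos hSpos (mul_pos hα3 (mul_pos (pow_pos h0 m) (by linarith)))
    linarith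

/-- The answer to the question is no: the set `Fprod q d β` is not convex for some `q ≥ 3`, `d ≥ 1`
and `β` in the range `max (0, 1 - q / (d + 1)) ≤ β ≤ 1`. In fact it is not convex for any `q ≥ 4`,
`d ≥ 2` and `0 < β < 1`. -/
theorem result :
    (¬ ∀ (q d : ℕ) (β : ℝ), 3 ≤ q → 1 ≤ d → max 0 (1 - (q : ℝ) / ((d : ℝ) + 1)) ≤ β → β ≤ 1 →
      Convex ℝ (Fprod q d β)) ∧
    ∀ (q d : ℕ) (β : ℝ), 4 ≤ q → 2 ≤ d → 0 < β → β < 1 → ¬ Convex ℝ (Fprod q d β) := by
  have h : ∀ (q d : ℕ) (β : ℝ), 4 ≤ q → 2 ≤ d → 0 < β → β < 1 → ¬ Convex ℝ (Fprod q d β) :=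
    fun q d β hq hd h0 h1 => main_part hq hd h0 h1
  refine ⟨fun hall => ?_, h⟩
  refine h 4 2 (1 / 2) le_rfl le_rfl (by norm_num) (by norm_num)
    (hall 4 2 (1 / 2) (by norm_num) (by norm_num) ?_ (by norm_num))
  rw [max_le_iff]
  constructor <;> norm_num

end Pool.Agent.Results.MP_d064d6_lc.NotConvex
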